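import Mathlib

/-!
Real zero polynomials: the discriminant of a cubic with real zeros, first order conditions,
and divisibility of polynomials that vanish on two coordinate hyperplanes.
-/

set_option autoImplicit false

namespace Q44.RZ

open MvPolynomial

/-- the discriminant of `A t^3 + B t^2 + C t + 1`. -/
def disc (A B C : ℝ) : ℝ :=
  18 * A * B * C - 4 * B ^ 3 + B ^ 2 * C ^ 2 - 4 * A * C ^ 3 - 27 * A ^ 2

theorem quad_disc_nonneg {A B C : ℝ} (hA : A ≠ 0)
    (h : ∀ c : ℂ, (A : ℂ) * c ^ 2 + B * c + C = 0 → c.im = 0) : 0 ≤ B ^ 2 - 4 * A * C := by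
  by_contra hcon
  push Not at hcon
  set s : ℝ := Real.sqrt (4 * A * C - B ^ 2) with hs
  have hs2 : s ^ 2 = 4 * A * C - B ^ 2 := Real.sq_sqrt (by linarith)
  have hspos : 0 < s := Real.sqrt_pos.mpr (by linarith)
  have hroot := h ⟨-B / (2 * A), s / (2 * A)⟩ ?_
  · simp only at hroot
    have : s / (2 * A) ≠ 0 := div_ne_zero hspos.ne' (by simpa using hA)
    exact this hroot
  · apply Complex.ext
    · simp [pow_two, Complex.add_re, Complex.mul_re, Complex.mul_im]
      field_simp
      nlinarith [hs2]
    · simp [pow_two, Complex.add_im, Complex.mul_re, Complex.mul_im]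
      field_simp
      ring

theorem disc_nonneg {A B C : ℝ}
    (h : ∀ c : ℂ, (A : ℂ) * c ^ 3 + B * c ^ 2 + C * c + 1 = 0 → c.im = 0) :
    0 ≤ disc A B C := by
  by_cases hA : A = 0
  · subst hA
    by_cases hB : B = 0
    · subst hB
      simp [disc]
    · have := quad_disc_nonneg (A := B) (B := C) (C := 1) hB (by
        intro c hc
        apply h c
        simpa using hc)
      have h2 : disc 0 B C = B ^ 2 * (C ^ 2 - 4 * B * 1) := by
        unfold disc
        ring
      rw [h2]
      positivity
  · -- a complex root exists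
    obtain ⟨c, hc⟩ : ∃ c : ℂ, (A : ℂ) * c ^ 3 + B * c ^ 2 + C * c + 1 = 0 := by
      have hdeg : (Polynomial.C (A : ℂ) * Polynomial.X ^ 3 + Polynomial.C (B : ℂ) * Polynomial.X ^ 2 +
          Polynomial.C (C : ℂ) * Polynomial.X + Polynomial.C 1).degree = 3 :=
        Polynomial.degree_cubic (by exact_mod_cast hA)
      obtain ⟨c, hc⟩ := IsAlgClosed.exists_root (Polynomial.C (A : ℂ) * Polynomial.X ^ 3 +
          Polynomial.C (B : ℂ) * Polynomial.X ^ 2 +
          Polynomial.C (C : ℂ) * Polynomial.X + Polynomial.C 1) (by rw [hdeg]; norm_num)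
      refine ⟨c, ?_⟩
      have := hc
      simp only [Polynomial.IsRoot.def, Polynomial.eval_add, Polynomial.eval_mul,
        Polynomial.eval_pow, Polynomial.eval_X, Polynomial.eval_C] at this
      exact this
    have hre := h c hc
    obtain ⟨a, b⟩ := c
    simp only at hre
    subst hre
    have hcast : (⟨a, 0⟩ : ℂ) = (a : ℂ) := rfl
    rw [hcast] at hc
    have hr : A * a ^ 3 + B * a ^ 2 + C * a + 1 = 0 := by exact_mod_cast hc
    have hq := quad_disc_nonneg (A := A) (B := B + A * a) (C := C + (B + A * a) * a) hA (by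
      intro c hc
      apply h c
      have h1 : (A : ℂ) * c ^ 3 + B * c ^ 2 + C * c + 1 =
          (c - a) * ((A : ℂ) * c ^ 2 + ((B + A * a : ℝ) : ℂ) * c +
            ((C + (B + A * a) * a : ℝ) : ℂ)) + ((A * a ^ 3 + B * a ^ 2 + C * a + 1 : ℝ) : ℂ) := by
        push_cast
        ring
      rw [h1, hc, hr]
      simp)
    have h3 : disc A B C = ((B + A * a) ^ 2 - 4 * A * (C + (B + A * a) * a)) *
        (A * a ^ 2 + (B + A * a) * a + (C + (B + A * a) * a)) ^ 2 := by
      have hC1 : (1 : ℝ) = -(A * a ^ 3 + B * a ^ 2 + C * a) := by linarith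
      have key : 18 * A * B * C * 1 - 4 * B ^ 3 * 1 + B ^ 2 * C ^ 2 - 4 * A * C ^ 3
          - 27 * A ^ 2 * 1 ^ 2 = ((B + A * a) ^ 2 - 4 * A * (C + (B + A * a) * a)) *
        (A * a ^ 2 + (B + A * a) * a + (C + (B + A * a) * a)) ^ 2 := by
        have : ∀ u : ℝ, u = -(A * a ^ 3 + B * a ^ 2 + C * a) →
          18 * A * B * C * u - 4 * B ^ 3 * u + B ^ 2 * C ^ 2 - 4 * A * C ^ 3
          - 27 * A ^ 2 * u ^ 2 = ((B + A * a) ^ 2 - 4 * A * (C + (B + A * a) * a)) *
        (A * a ^ 2 + (B + A * a) * a + (C + (B + A * a) * a)) ^ 2 := by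
          intro u hu
          subst hu
          ring
        exact this 1 hC1
      unfold disc
      linarith [key]
    rw [h3]
    positivity

/-- a function `c s + s^2 E(s)` that is nonnegative for all `s` has `c = 0`. -/
theorem lin_zero {E : ℝ → ℝ} (hE : Continuous E) {c : ℝ}
    (h : ∀ s, 0 ≤ c * s + s ^ 2 * E s) : c = 0 := by
  have hd : HasDerivAt (fun s => c * s + s ^ 2 * E s) c 0 := by
    have h1 : HasDerivAt (fun s : ℝ => c * s) c 0 := by
      simpa using (hasDerivAt_id (0 : ℝ)).const_mul c
    have h2 : HasDerivAt (fun s : ℝ => s ^ 2 * E s) 0 0 := by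
      rw [hasDerivAt_iff_tendsto_slope]
      have : Filter.Tendsto (fun s : ℝ => s * E s) (nhdsWithin 0 {0}ᶜ) (nhds 0) := by
        have h3 : Continuous fun s : ℝ => s * E s := by fun_prop
        have h4 := h3.tendsto 0
        simp only [zero_mul] at h4
        exact h4.mono_left nhdsWithin_le_nhds
      refine this.congr' ?_
      filter_upwards [self_mem_nhdsWithin] with s hs
      have hs' : s ≠ 0 := by simpa using hs
      simp only [slope_def_field]
      field_simp
      ring
    have h5 := h1.add h2
    rw [add_zero] at h5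
    exact h5
  have hmin : IsLocalMin (fun s => c * s + s ^ 2 * E s) 0 := by
    apply Filter.Eventually.of_forall
    intro s
    simpa using h s
  exact hmin.hasDerivAt_eq_zero hd

/-- the polynomial minus its value at `X i = 0` is divisible by `X i`. -/
theorem X_dvd_sub {σ : Type} [DecidableEq σ] (i : σ) (f : MvPolynomial σ ℝ) :
    X i ∣ f - aeval (fun j => if j = i then (0 : MvPolynomial σ ℝ) else X j) f := by
  induction f using MvPolynomial.induction_on with
  | C a => simp
  | add p q hp hq =>
    have : p + q - aeval (fun j => if j = i then (0 : MvPolynomial σ ℝ) else X j) (p + q) =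
      (p - aeval (fun j => if j = i then (0 : MvPolynomial σ ℝ) else X j) p) +
      (q - aeval (fun j => if j = i then (0 : MvPolynomial σ ℝ) else X j) q) := by
      rw [map_add]
      ring
    rw [this]
    exact dvd_add hp hq
  | mul_X p j hp =>
    by_cases hj : j = i
    · subst hj
      simp
    · have : p * X j - aeval (fun j => if j = i then (0 : MvPolynomial σ ℝ) else X j) (p * X j) =
        (p - aeval (fun j => if j = i then (0 : MvPolynomial σ ℝ) else X j) p) * X j := by
        rw [map_mul, aeval_X, if_neg hj]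
        ring
      rw [this]
      exact Dvd.dvd.mul_right hp _

end Q44.RZ
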