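import Pool.Agent.Q44.RZ.Basic

/-!
The real inequalities forced on an amalgam of degree three are inconsistent.
-/

set_option autoImplicit false

namespace Q44.RZ

/-- first order condition at a zero of the discriminant. -/
theorem disc_crit (a0 a1 a2 b0 b1 c0 c1 : ℝ) (h0 : disc a0 b0 c0 = 0)
    (H : ∀ s : ℝ, 0 ≤ disc (a0 + a1 * s + a2 * s ^ 2) (b0 + b1 * s) (c0 + c1 * s)) :
    2*b0*b1*c0^2 + 2*b0^2*c0*c1 + (-12)*b0^2*b1 + (-4)*a1*c0^3 + 18*a1*b0*c0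
      + (-12)*a0*c0^2*c1 + 18*a0*b1*c0 + 18*a0*b0*c1 + (-54)*a0*a1 = 0 := by
  apply lin_zero (E := fun s => 1*b1^2*c0^2 + 4*b0*b1*c0*c1 + (-12)*b0*b1^2 + 1*b0^2*c1^2
    + (-4)*a2*c0^3 + 18*a2*b0*c0 + (-12)*a1*c0^2*c1 + 18*a1*b1*c0 + 18*a1*b0*c1 + (-27)*a1^2
    + (-12)*a0*c0*c1^2 + 18*a0*b1*c1 + (-54)*a0*a2 + 2*s*b1^2*c0*c1 + (-4)*s*b1^3
    + 2*s*b0*b1*c1^2 + (-12)*s*a2*c0^2*c1 + 18*s*a2*b1*c0 + 18*s*a2*b0*c1
    + (-12)*s*a1*c0*c1^2 + 18*s*a1*b1*c1 + (-54)*s*a1*a2 + (-4)*s*a0*c1^3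
    + 1*s^2*b1^2*c1^2 + (-12)*s^2*a2*c0*c1^2 + 18*s^2*a2*b1*c1 + (-27)*s^2*a2^2
    + (-4)*s^2*a1*c1^3 + (-4)*s^3*a2*c1^3)
  · fun_prop
  · intro s
    have h1 := H s
    have h2 : disc (a0 + a1 * s + a2 * s ^ 2) (b0 + b1 * s) (c0 + c1 * s) =
      disc a0 b0 c0 + ((2*b0*b1*c0^2 + 2*b0^2*c0*c1 + (-12)*b0^2*b1 + (-4)*a1*c0^3 + 18*a1*b0*c0
      + (-12)*a0*c0^2*c1 + 18*a0*b1*c0 + 18*a0*b0*c1 + (-54)*a0*a1) * s + s ^ 2 *
      (1*b1^2*c0^2 + 4*b0*b1*c0*c1 + (-12)*b0*b1^2 + 1*b0^2*c1^2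
    + (-4)*a2*c0^3 + 18*a2*b0*c0 + (-12)*a1*c0^2*c1 + 18*a1*b1*c0 + 18*a1*b0*c1 + (-27)*a1^2
    + (-12)*a0*c0*c1^2 + 18*a0*b1*c1 + (-54)*a0*a2 + 2*s*b1^2*c0*c1 + (-4)*s*b1^3
    + 2*s*b0*b1*c1^2 + (-12)*s*a2*c0^2*c1 + 18*s*a2*b1*c0 + 18*s*a2*b0*c1
    + (-12)*s*a1*c0*c1^2 + 18*s*a1*b1*c1 + (-54)*s*a1*a2 + (-4)*s*a0*c1^3
    + 1*s^2*b1^2*c1^2 + (-12)*s^2*a2*c0*c1^2 + 18*s^2*a2*b1*c1 + (-27)*s^2*a2^2
    + (-4)*s^2*a1*c1^3 + (-4)*s^3*a2*c1^3)) := by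
      unfold disc
      ring
    rw [h2, h0, zero_add] at h1
    exact h1

/-- no choice of the remaining five coefficients gives real zeros in all directions. -/
theorem no_coeffs (k0 k1 k2 k3 k4 : ℝ)
    (H : ∀ u v y z : ℝ, 0 ≤ disc
      (-(z * u ^ 2) + y * z * (k1 * u + k2 * v + k3 * y + k4 * z))
      (-u ^ 2 - v ^ 2 - y * v + k0 * (y * z)) (y + z)) : False := by
  -- the coefficient of `y z^2`
  have e4 : k4 = 0 := by
    have := disc_crit 0 k4 k3 0 k0 1 1 (by unfold disc; norm_num) (by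
      intro s
      have h := H 0 0 s 1
      have e : disc (0 + k4 * s + k3 * s ^ 2) (0 + k0 * s) (1 + 1 * s) = disc
        (-(1 * 0 ^ 2) + s * 1 * (k1 * 0 + k2 * 0 + k3 * s + k4 * 1))
        (-0 ^ 2 - 0 ^ 2 - s * 0 + k0 * (s * 1)) (s + 1) := by
        congr 1 <;> ring
      rw [e]
      exact h)
    linarith
  have e3 : k3 = 0 := by
    have := disc_crit 0 k3 k4 0 k0 1 1 (by unfold disc; norm_num) (by
      intro s
      have h := H 0 0 1 s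
      have e : disc (0 + k3 * s + k4 * s ^ 2) (0 + k0 * s) (1 + 1 * s) = disc
        (-(s * 0 ^ 2) + 1 * s * (k1 * 0 + k2 * 0 + k3 * 1 + k4 * s))
        (-0 ^ 2 - 0 ^ 2 - 1 * 0 + k0 * (1 * s)) (1 + s) := by
        congr 1 <;> ring
      rw [e]
      exact h)
    linarith
  subst e3 e4
  have e1 : k0 + k1 = 1 := by
    have := disc_crit 1 (-k1) 0 (-1) (-k0) (-1) 1 (by unfold disc; norm_num) (by
      intro s
      have h := H 1 0 s (-1)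
      have e : disc (1 + -k1 * s + 0 * s ^ 2) (-1 + -k0 * s) (-1 + 1 * s) = disc
        (-(-1 * 1 ^ 2) + s * -1 * (k1 * 1 + k2 * 0 + 0 * s + 0 * -1))
        (-1 ^ 2 - 0 ^ 2 - s * 0 + k0 * (s * -1)) (s + -1) := by
        congr 1 <;> ring
      rw [e]
      exact h)
    linarith
  have e2 : k0 - k1 = 1 := by
    have := disc_crit 1 k1 0 (-1) (-k0) (-1) 1 (by unfold disc; norm_num) (by
      intro s
      have h := H (-1) 0 s (-1)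
      have e : disc (1 + k1 * s + 0 * s ^ 2) (-1 + -k0 * s) (-1 + 1 * s) = disc
        (-(-1 * (-1) ^ 2) + s * -1 * (k1 * -1 + k2 * 0 + 0 * s + 0 * -1))
        (-(-1) ^ 2 - 0 ^ 2 - s * 0 + k0 * (s * -1)) (s + -1) := by
        congr 1 <;> ring
      rw [e]
      exact h)
    linarith
  have e5 : 2 * k0 + 2 * k2 = 1 := by
    have := disc_crit 0 (-2 * k2) 0 1 (-2 * k0) (-2) 1 (by unfold disc; norm_num) (by
      intro s
      have h := H 0 1 (-2) s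
      have e : disc (0 + -2 * k2 * s + 0 * s ^ 2) (1 + -2 * k0 * s) (-2 + 1 * s) = disc
        (-(s * 0 ^ 2) + -2 * s * (k1 * 0 + k2 * 1 + 0 * -2 + 0 * s))
        (-0 ^ 2 - 1 ^ 2 - -2 * 1 + k0 * (-2 * s)) (-2 + s) := by
        congr 1 <;> ring
      rw [e]
      exact h)
    linarith
  have hk0 : k0 = 1 := by linarith
  have hk2 : k2 = -1 / 2 := by linarith
  subst hk0 hk2
  have h := H 0 (-1) 1 100
  unfold disc at h
  norm_num at h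

end Q44.RZ
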