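import Pool.Agent.Q44.RZ.Basic

/-!
A polynomial of total degree at most one is affine linear.
-/

set_option autoImplicit false

namespace Q44.RZ

open MvPolynomial

theorem eq_affine {σ : Type} [Fintype σ] [DecidableEq σ] (h : MvPolynomial σ ℝ)
    (hd : h.totalDegree ≤ 1) :
    h = C (coeff 0 h) + ∑ i, C (coeff (Finsupp.single i 1) h) * X i := by
  ext m
  rw [coeff_add, coeff_C, coeff_sum]
  simp only [coeff_C_mul, coeff_X]
  by_cases h0 : m = 0
  · subst h0
    rw [if_pos rfl, Finset.sum_eq_zero]
    · ring
    · intro i _
      rw [if_neg]
      · ring
      · intro h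
        have := congrArg (fun f => f i) h
        simp at this
  · rw [if_neg (Ne.symm h0), zero_add]
    by_cases h1 : ∃ i, Finsupp.single i 1 = m
    · obtain ⟨i, rfl⟩ := h1
      rw [Finset.sum_eq_single i]
      · simp
      · intro j _ hj
        rw [if_neg]
        · ring
        · intro h
          have := congrArg (fun f => f j) h
          simp [Ne.symm hj] at this
      · intro hi
        exact absurd (Finset.mem_univ i) hi
    · rw [Finset.sum_eq_zero]
      · apply coeff_eq_zero_of_totalDegree_lt
        apply lt_of_le_of_lt hd
        by_contra hcon
        push Not at hcon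
        have hsum : m.sum (fun _ e => e) ≤ 1 := hcon
        have hne : m.sum (fun _ e => e) ≠ 0 := by
          intro hz
          apply h0
          ext i
          by_contra hi
          have hmem : i ∈ m.support := Finsupp.mem_support_iff.mpr hi
          have := Finset.sum_eq_zero_iff.mp hz i hmem
          exact hi this
        have h1' : m.sum (fun _ e => e) = 1 := by omega
        obtain ⟨a, ha⟩ := (Finsupp.sum_eq_one_iff _).mp h1'
        exact h1 ⟨a, ha.symm⟩
      · intro i _
        rw [if_neg]
        · ring
        · intro h
          exact h1 ⟨i, h⟩

end Q44.RZ
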